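import Pool.Agent.MP_8be872_ag.H63.SpecB
import Pool.Agent.MP_8be872_ag.H63.ApiC

/-! Module Exa: invariants of `GL(T)` are exact. -/

namespace Pool.Agent.MP_8be872_ag.H45

open Finset H38 H56 H63 MvPolynomial

set_option linter.unusedSectionVars false

section Abs

variable {M : Type} [AddCommGroup M] [Module ℂ M]

theorem poly_step (D Ω Ω' : Module.End ℂ M) (Z B : Submodule ℂ M) (hZ : ∀ y ∈ Z, Ω' y ∈ Z)
    (hΩ : ∀ y ∈ Z, Ω y = Ω' y) (hB : ∀ y ∈ B, Ω' y ∈ B) (hD : Ω' * D = D * Ω') {x y : M}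
    (hx : Ω' x ∈ B) (hy : y ∈ Z) (hxy : x - D y ∈ B) (P : Polynomial ℂ) :
    Polynomial.aeval Ω P y ∈ Z ∧ P.eval 0 • x - D (Polynomial.aeval Ω P y) ∈ B := by
  have h1 : ∀ n : ℕ, (Ω ^ n) y ∈ Z ∧ (if n = 0 then x else 0) - D ((Ω ^ n) y) ∈ B := by
    intro n
    induction n with
    | zero => simpa using ⟨hy, hxy⟩
    | succ n ih =>
      have e : (Ω ^ (n + 1)) y = Ω' ((Ω ^ n) y) := by
        rw [pow_succ', Module.End.mul_apply, hΩ _ ih.1]
      have e2 : D (Ω' ((Ω ^ n) y)) = Ω' (D ((Ω ^ n) y)) := by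
        rw [← Module.End.mul_apply D Ω', ← hD, Module.End.mul_apply]
      refine ⟨e ▸ hZ _ ih.1, ?_⟩
      rw [e, e2, if_neg (Nat.succ_ne_zero n)]
      have h2 := hB _ ih.2
      rw [map_sub] at h2
      have h3 : Ω' (if n = 0 then x else 0) ∈ B := by
        split_ifs
        · exact hx
        · rw [map_zero]; exact B.zero_mem
      have h4 := B.sub_mem h2 h3
      rwa [sub_sub_cancel_left, ← zero_sub] at h4
  induction P using Polynomial.induction_on' with
  | add p q hp hq =>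
    rw [map_add, LinearMap.add_apply, Polynomial.eval_add, add_smul, map_add, add_sub_add_comm]
    exact ⟨Z.add_mem hp.1 hq.1, B.add_mem hp.2 hq.2⟩
  | monomial n a =>
    rw [Polynomial.aeval_monomial, Module.End.mul_apply, Module.algebraMap_end_apply,
      Polynomial.eval_monomial, map_smul]
    refine ⟨Z.smul_mem a (h1 n).1, ?_⟩
    have h2 := B.smul_mem a (h1 n).2
    rw [smul_sub] at h2
    have e : (a * 0 ^ n) • x = a • (if n = 0 then x else 0) := by
      cases n <;> simp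
    rwa [e]

end Abs

section Cech

variable {E O J : Type} [Fintype E] [Fintype O] [Fintype J] [DecidableEq E] [DecidableEq O]
  [DecidableEq J] {Al : Gn E O J → Prop}

theorem cech_swap {J₀ J₁ : Finset J} {μ : Gn E O J → ℕ} {g g' : Gn E O J}
    (h : cech Al J₀ J₁ (μ + Pi.single g 1)) (hg : ∀ j, g ≠ ev j) (hg' : Al g') :
    cech Al J₀ J₁ (Pi.single g' 1 + μ) := by
  have k0 : ∀ j, (μ + Pi.single g 1 : Gn E O J → ℕ) (ev j) = μ (ev j) := fun j => by
    rw [Pi.add_apply, Pi.single_eq_of_ne (hg j).symm, add_zero]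
  have k : ∀ j, (μ + Pi.single g 1 : Gn E O J → ℕ) (ev j) ≠ 0 →
      (Pi.single g' 1 + μ : Gn E O J → ℕ) (ev j) ≠ 0 := fun j hj => by
    rw [k0] at hj
    rw [Pi.add_apply]
    omega
  refine ⟨fun a ha => ?_, fun j hj => k j (h.2.1 j hj), h.2.2.imp k⟩
  by_cases h1 : a = g'
  · exact Or.inl (h1 ▸ hg')
  · rw [Pi.add_apply, Pi.single_eq_of_ne h1, zero_add] at ha
    have ha' : (μ + Pi.single g 1 : Gn E O J → ℕ) a ≠ 0 := by
      rw [Pi.add_apply]; omega
    exact (h.1 a ha').imp_right (Or.imp_left fun ⟨j, u, v⟩ => ⟨j, u, k j v⟩)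

end Cech

variable {Q : Quiv} {w v D : Fin Q.n → ℕ} {J : Type} [Fintype J] [DecidableEq J]

theorem gg_ne_ev (k : Kd Q) (p q : Nb Q w v D) (j : J) :
    (gg k p q : Ix Q w v D J ⊕ Ix Q w v D J) ≠ ev j := by
  rcases k with τ | τ <;> simp [gg]

theorem gg_isRight (k : Kd Q) (p q : Nb Q w v D) :
    (gg k p q : Ix Q w v D J ⊕ Ix Q w v D J).isRight = k.isRight := by
  rcases k with τ | τ <;> rfl

theorem ofM_gg {A : Type} (M : Kd Q → Nb Q w v D → Nb Q w v D → A) (t e : J → A) (k : Kd Q)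
    (p q : Nb Q w v D) : ofM M t e (gg k p q) = M k p q := by
  rcases k with τ | τ <;> rfl

/-- `lie` preserves a space of monomials stable under exchanging entries of a matrix. -/
theorem lie_mem (h2 : Glob2At Q w v D J) (R : Nb Q w v D → Nb Q w v D → Prop) (a b : Nb Q w v D)
    {P : (Ix Q w v D J ⊕ Ix Q w v D J → ℕ) → Prop}
    (hP : ∀ k p q p' q' (μ : Ix Q w v D J ⊕ Ix Q w v D J → ℕ), shape R k p' q' →
      P (μ + Pi.single (gg k p q) 1) → P (Pi.single (gg k p' q') 1 + μ)) {x} (hx : x ∈ mono P) : lie R a b x ∈ mono P := by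
  obtain ⟨δ, e, -, hδ⟩ := h2.val R a b
  rw [e]
  refine vf_mem hδ hx ?_
  rintro g μ ν hμ ⟨k, p, q, p', q', rfl, rfl, hs, -⟩
  exact hP k p q p' q' μ hs hμ

/-- The integral weights of the Čech variables. -/
noncomputable def cz (φ : J → G) (a : Nb Q w v D) : Ix Q w v D J ⊕ Ix Q w v D J → ℂ :=
  ofM (fun _ _ _ => 0) (fun j => (xi a (φ j) : ℂ)) 0

/-- The correction of the diagonal action. -/
noncomputable def cor (φ : J → G) (γ : G) (a : Nb Q w v D) : OpQ Q w v D J :=
  vf (fun g => cz φ a g • gn g) + algebraMap ℂ _ (xi a γ : ℂ)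

theorem cor_apply (φ : J → G) (γ : G) (a : Nb Q w v D) {t : ℂ} {x}
    (hx : x ∈ mono fun μ => ws (cz φ a) μ = t) : cor φ γ a x = (t + xi a γ) • x := by
  rw [cor, LinearMap.add_apply, euler_apply _ hx, Module.algebraMap_end_apply, add_smul]

theorem op_ext_bas {E O : Type} [Fintype E] [Fintype O] [DecidableEq E] [DecidableEq O]
    {L L' : Module.End ℂ (Sp E O)} (h : ∀ S m, L (bas S m) = L' (bas S m)) : L = L' := by
  refine LinearMap.ext fun x => ?_
  have := mono_le_of_bas (P := fun _ => True) (C := LinearMap.eqLocus L L') (fun S m _ => h S m)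
  exact this (apiC_top x)

theorem cor_lie (h2 : Glob2At Q w v D J) (φ : J → G) (γ : G) (c : Nb Q w v D)
    (R : Nb Q w v D → Nb Q w v D → Prop) (a b : Nb Q w v D) :
    cor φ γ c * lie R a b = lie R a b * cor φ γ c := by
  refine op_ext_bas fun S m => ?_
  have h0 : bas S m ∈ mono fun μ => ws (cz φ c) μ = ws (cz φ c) (ex S m) := bas_mem rfl
  have h1 := lie_mem h2 R a b (fun k p q p' q' μ _ h => by
    rw [ws_add, ws_single, cz, ofM_gg, add_zero] at h
    rw [ws_add, ws_single, cz, ofM_gg, zero_add]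
    exact h) h0
  rw [Module.End.mul_apply, Module.End.mul_apply, cor_apply φ γ c h1, cor_apply φ γ c h0, map_smul]

theorem cor_cor (φ : J → G) (γ : G) (a c : Nb Q w v D) :
    cor φ γ c * cor φ γ a = cor φ γ a * cor φ γ c := by
  refine op_ext_bas fun S m => ?_
  have h0 : ∀ c : Nb Q w v D, bas S m ∈ mono fun μ => ws (cz φ c) μ = ws (cz φ c) (ex S m) :=
    fun _ => bas_mem rfl
  rw [Module.End.mul_apply, Module.End.mul_apply, cor_apply φ γ c (h0 c), cor_apply φ γ a (h0 a),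
    map_smul, map_smul, cor_apply φ γ c (h0 c), cor_apply φ γ a (h0 a), smul_comm]

theorem cor_congr {φ : J → G} {γ : G} (hφ : ∀ j, Const w v D 0 (φ j)) (hγ : Const w v D 0 γ)
    {a b : Bas Q D} (h : a.1 = b.1) :
    (cor φ γ (.inl a) : OpQ Q w v D J) = cor φ γ (.inl b) := by
  have e : (cz φ (.inl a) : Ix Q w v D J ⊕ Ix Q w v D J → ℂ) = cz φ (.inl b) := by
    unfold cz
    congr 1
    funext j
    rw [hφ j (.inl a) (.inl b) rfl rfl h]
  rw [cor, cor, e, hγ (.inl a) (.inl b) rfl rfl h]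

/-- The twisted action of `gl(T)`. -/
noncomputable def EE (φ : J → G) (γ : G) (a b : Bas Q D) : OpQ Q w v D J :=
  lie radF (.inl a) (.inl b) - if a = b then cor φ γ (.inl a) else 0

theorem levP {a b : Bas Q D} (h : a.1 = b.1) : LevP Q w v D radF (.inl a) (.inl b) :=
  ⟨h, rfl, Or.inl rfl⟩

theorem br_sub {A : Type} [Ring A] {x y s t : A} (h1 : s * y = y * s) (h2 : t * x = x * t)
    (h3 : s * t = t * s) : (x - s) * (y - t) - (y - t) * (x - s) = x * y - y * x := by
  simp only [mul_sub, sub_mul, h1, h2, h3]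
  abel

theorem glRel (h2 : Glob2At Q w v D J) {φ : J → G} {γ : G} (hφ : ∀ j, Const w v D 0 (φ j))
    (hγ : Const w v D 0 γ) : GlRel Sigma.fst (EE (w := w) (v := v) (D := D) φ γ) := by
  intro a b c d hab hcd
  have k : ∀ (a b : Bas Q D) (p q : Nb Q w v D),
      (if a = b then cor φ γ (.inl a) else 0 : OpQ Q w v D J) * lie radF p q =
        lie radF p q * if a = b then cor φ γ (.inl a) else 0 := by
    intro a b p q
    split_ifs
    · exact cor_lie h2 φ γ _ _ _ _
    · rw [zero_mul, mul_zero]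
  have k' : (if a = b then cor φ γ (.inl a) else 0 : OpQ Q w v D J) *
      (if c = d then cor φ γ (.inl c) else 0) =
        (if c = d then cor φ γ (.inl c) else 0) * if a = b then cor φ γ (.inl a) else 0 := by
    split_ifs
    · exact cor_cor φ γ _ _
    all_goals simp only [zero_mul, mul_zero]
  rw [EE, EE, br_sub (k a b _ _) (k c d _ _) k',
    h2.brk radF (Or.inr rfl) _ _ _ _ (levP hab) (levP hcd)]
  simp only [Sum.inl.injEq, EE]
  by_cases h1 : b = c
  · by_cases h3 : d = a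
    · subst h1 h3
      simp only [if_true, cor_congr hφ hγ hab]
      abel
    · simp only [h1, h3, if_true, if_false, if_neg (Ne.symm h3), sub_zero]
  · by_cases h3 : d = a
    · simp only [h1, h3, if_true, if_false, if_neg (Ne.symm h1), sub_zero]
    · simp only [h1, h3, if_false]

/-- The gauge weight seen by the diagonal action. -/
noncomputable def w0 : Ix Q w v D J ⊕ Ix Q w v D J → G := fun g =>
  open Classical in if AlG radF g then wt bw (0 : J → G) g else 0

theorem EE_diag (h2 : Glob2At Q w v D J) (φ : J → G) (γ : G) (a : Bas Q D) {β : G} {t : ℂ} {x}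
    (hx : x ∈ mono fun μ => ws (w0 (w := w) (v := v) (D := D) (J := J)) μ = β ∧
      ws (cz φ (.inl a)) μ = t) :
    EE φ γ a a x = ((xi (.inl a : Nb Q w v D) β : ℂ) - (t + xi (.inl a : Nb Q w v D) γ)) • x := by
  rw [EE, if_pos rfl, LinearMap.sub_apply, cor_apply φ γ _ (mono_le (fun _ h => h.2) hx),
    h2.diag radF (.inl a) β (by simp [blk]) x (mono_le (fun _ h => h.1) hx), sub_smul]

theorem ws_cz (φ : J → G) (a : Nb Q w v D) (μ : Ix Q w v D J ⊕ Ix Q w v D J → ℕ) :
    ws (cz φ a) μ = (xi a (ws (ofM (fun _ _ _ => 0) φ 0) μ) : ℂ) := by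
  have := map_ws ((Int.castAddHom ℂ).comp (xi a)) (ofM (fun _ _ _ => 0) φ 0) μ
  refine Eq.trans ?_ this.symm
  congr 1
  funext g
  rcases g with (⟨τ, p, q⟩ | j) | (⟨τ, p, q⟩ | j) <;> simp [cz, ofM]

theorem locFin (h2 : Glob2At Q w v D J) (φ : J → G) (γ : G) :
    LocFin Sigma.fst (EE (w := w) (v := v) (D := D) φ γ) := by
  refine ⟨fun x => ?_, fun x => ?_⟩
  · obtain ⟨n, hn⟩ := exists_deg x
    refine ⟨_, finite_deg n, hn, fun a b _ y hy => ?_⟩
    rw [EE, LinearMap.sub_apply]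
    refine Submodule.sub_mem _ (lie_mem h2 _ _ _ (fun k p q p' q' μ _ h => ?_) hy) ?_
    · simp only [Pi.add_apply, Finset.sum_add_distrib, Finset.sum_pi_single', Finset.mem_univ,
        if_true] at h ⊢
      omega
    · split_ifs
      · refine map_mem_of_bas (fun S m h => ?_) hy
        rw [cor_apply φ γ _ (bas_mem rfl)]
        exact Submodule.smul_mem _ _ (bas_mem h)
      · exact Submodule.zero_mem _
  · refine mono_le_of_bas (P := fun _ => True) (fun S m _ => Submodule.subset_span ?_) (apiC_top x)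
    refine ⟨fun a => xi (.inl a : Nb Q w v D) (ws w0 (ex S m)) -
      (xi (.inl a : Nb Q w v D) (ws (ofM (fun _ _ _ => 0) φ 0) (ex S m)) +
        xi (.inl a : Nb Q w v D) γ), fun a => ?_⟩
    rw [EE_diag h2 φ γ a (bas_mem ⟨rfl, ws_cz φ _ _⟩)]
    push_cast
    rfl

theorem w0_cech (φ : J → G) {J₀ J₁ : Finset J} {μ : Ix Q w v D J ⊕ Ix Q w v D J → ℕ}
    (h : cech (AlG radF) J₀ J₁ μ) :
    ws w0 μ = ws (ofM (fun _ _ _ => 0) φ 0) μ + ws (wt bw φ) μ := by
  simp only [ws, ← Finset.sum_add_distrib]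
  refine Finset.sum_congr rfl fun g _ => ?_
  by_cases hg : μ g = 0
  · simp only [hg, zero_smul, add_zero]
  rw [← nsmul_add]
  congr 1
  rcases g with (⟨τ, p, q⟩ | j) | (⟨τ, p, q⟩ | j)
  · have : AlG radF (.inl (.inl (τ, p, q)) : Ix Q w v D J ⊕ Ix Q w v D J) := by
      rcases h.1 _ hg with h | ⟨j, h, -⟩ | ⟨j, -, h⟩
      · exact h
      · cases h
      · cases h
    rw [w0, if_pos this]
    exact (zero_add _).symm
  · have : ¬ AlG radF (.inl (.inr j) : Ix Q w v D J ⊕ Ix Q w v D J) := fun h => h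
    rw [w0, if_neg this]
    exact (add_neg_cancel _).symm
  · have : AlG radF (.inr (.inl (τ, p, q)) : Ix Q w v D J ⊕ Ix Q w v D J) := by
      rcases h.1 _ hg with h | ⟨j, h, -⟩ | ⟨j, -, h⟩
      · exact h
      · cases h
      · cases h
    rw [w0, if_pos this]
    exact (zero_add _).symm
  · have : ¬ AlG radF (.inr (.inr j) : Ix Q w v D J ⊕ Ix Q w v D J) := fun h => h
    rw [w0, if_neg this]
    exact (add_zero _).symm

theorem EE_zero (h2 : Glob2At Q w v D J) (φ : J → G) (γ : G) (a : Bas Q D) {J₀ J₁ : Finset J}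
    {p : Bool} {x} (hx : x ∈ ZZ (AlG (w := w) (v := v) (D := D) radF) (wt bw φ) J₀ J₁ γ p) :
    EE φ γ a a x = 0 := by
  refine (Submodule.mem_bot ℂ).1 (map_mem_of_bas (fun S m h => ?_) hx)
  rw [EE_diag h2 φ γ a (bas_mem ⟨rfl, ws_cz φ _ _⟩), w0_cech φ h.1, h.2.1, map_add]
  push_cast
  rw [sub_self, zero_smul]
  exact Submodule.zero_mem _

theorem lie_ZZ (h2 : Glob2At Q w v D J) (φ : J → G) (γ : G) (a b : Nb Q w v D)
    {J₀ J₁ : Finset J} {p : Bool} {U : (J → ℕ) → Prop} {x}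
    (hx : x ∈ ZZ (AlG radF) (wt bw φ) J₀ J₁ γ p ⊓ mono fun μ => U fun j => μ (ev j)) :
    lie radF a b x ∈ ZZ (AlG radF) (wt bw φ) J₀ J₁ (γ + (bw a - bw b)) p ⊓
      mono fun μ => U fun j => μ (ev j) := by
  have h1 := h2.wts radF a b bw φ γ x (mono_le (fun _ h => h.2.1) hx.1)
  have h3 := lie_mem h2 radF a b (P := fun μ => cech (AlG radF) J₀ J₁ μ ∧ od μ = p)
    (fun k s t s' t' μ hs h => ⟨cech_swap h.1 (gg_ne_ev k s t) (by rwa [AlG, ofM_gg]), by
      have := h.2
      rw [od_add, od_single, gg_isRight] at this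
      rw [od_add, od_single, gg_isRight, Bool.xor_comm, this]⟩)
    (mono_le (fun _ h => ⟨h.1, h.2.2⟩) hx.1)
  refine ⟨?_, lie_mem h2 radF a b (fun k s t s' t' μ _ h => ?_) hx.2⟩
  · have h4 := Submodule.mem_inf.2 ⟨h3, h1⟩
    rw [← mono_and] at h4
    exact mono_le (fun _ h => ⟨h.1.1, h.2, h.1.2⟩) h4
  · simp only [Pi.add_apply, Pi.single_eq_of_ne (gg_ne_ev _ _ _ _).symm, add_zero, zero_add] at h ⊢
    exact h

theorem offT_of {a b : Bas Q D} (h : a.1 = b.1) (h' : a ≠ b) :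
    offT (.inl a : Nb Q w v D) (.inl b) :=
  ⟨fun e => h' (Sum.inl.inj e), h, rfl, rfl⟩

theorem of_offT {a b : Nb Q w v D} (h : offT a b) :
    ∃ a' b' : Bas Q D, a = .inl a' ∧ b = .inl b' ∧ a'.1 = b'.1 ∧ a' ≠ b' := by
  obtain ⟨h1, h2, h3, h4⟩ := h
  rcases a with a | a | a
  · rcases b with b | b | b
    · exact ⟨a, b, rfl, rfl, h2, fun e => h1 (by rw [e])⟩
    · cases h4
    · cases h4
  · cases h3
  · cases h3

theorem mem_InvT {f : J → MvPolynomial (Ix Q w v D J) ℂ} {x} :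
    x ∈ InvT f ↔ ∀ a b, offT a b → lie radF a b x ∈ rel f := by
  simp only [InvT, Submodule.mem_iInf, Submodule.mem_comap]

/-- The off-diagonal part of the Casimir operator. -/
noncomputable def Om : OpQ Q w v D J :=
  ∑ a : Bas Q D, ∑ b : Bas Q D, if a.1 = b.1 ∧ a ≠ b then
    lie radF (.inl a) (.inl b) * lie radF (.inl b) (.inl a) else 0

theorem Om_mem {C : Submodule ℂ (Sp (Ix Q w v D J) (Ix Q w v D J))} {x}
    (h : ∀ a b : Bas Q D, a.1 = b.1 → a ≠ b →
      lie radF (.inl a) (.inl b) (lie radF (.inl b) (.inl a) x) ∈ C) : Om x ∈ C := by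
  rw [Om, LinearMap.sum_apply]
  refine Submodule.sum_mem _ fun a _ => ?_
  rw [LinearMap.sum_apply]
  refine Submodule.sum_mem _ fun b _ => ?_
  split_ifs with hab
  · exact h a b hab.1 hab.2
  · exact Submodule.zero_mem _

theorem exa : K0Stmt → Glob1Stmt → Glob2Stmt → Glob3Stmt → ExaStmt := by
  intro k0 _ g2 g3 Q w v D J _ _ f φ hf γ hγ A J₀ J₁ U hac p x hx hDx
  have h2 := g2 Q w v D J
  have h3 := ((g3 Q w v D J f φ).2 hf).2
  obtain ⟨y, hy, hxy⟩ := hac p x hx.1 hDx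
  obtain ⟨P, hP, hE⟩ := k0 (Bas Q D) (Fin Q.n) _ Sigma.fst (EE φ γ)
    (glRel h2 (fun j => (hf j).2.1) hγ) (locFin h2 φ γ) y
  have key := poly_step (Dloc (dG radF) 0 f A) (casimir Sigma.fst (EE φ γ)) Om
    (ZZ (AlG radF) (wt bw φ) J₀ J₁ γ (!p) ⊓ mono fun μ => U fun j => μ (ev j)) (rel f)
    (fun z hz => Om_mem fun a b _ _ => by
      have := lie_ZZ h2 φ _ (.inl a) (.inl b) (lie_ZZ h2 φ γ (.inl b) (.inl a) hz)
      rwa [add_assoc, sub_add_sub_cancel, sub_self, add_zero] at this)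
    (fun z hz => by
      rw [casimir, Om, LinearMap.sum_apply, LinearMap.sum_apply]
      refine Finset.sum_congr rfl fun a _ => ?_
      rw [LinearMap.sum_apply, LinearMap.sum_apply]
      refine Finset.sum_congr rfl fun b _ => ?_
      by_cases hab : a = b
      · subst hab
        rw [if_pos rfl, if_neg (fun h => h.2 rfl), Module.End.mul_apply, EE_zero h2 φ γ a hz.1,
          map_zero, LinearMap.zero_apply]
      · simp only [EE, hab, Ne.symm hab, if_false, sub_zero, ne_eq, not_false_eq_true, and_true])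
    (fun z hz => Om_mem fun a b h h' => (h3 _ _ (offT_of h h')).2 _
      ((h3 _ _ (offT_of h.symm h'.symm)).2 _ hz))
    (by
      rw [Om, Finset.sum_mul, Finset.mul_sum]
      refine Finset.sum_congr rfl fun a _ => ?_
      rw [Finset.sum_mul, Finset.mul_sum]
      refine Finset.sum_congr rfl fun b _ => ?_
      split_ifs with hab
      · rw [mul_assoc, (h3 _ _ (offT_of hab.1.symm hab.2.symm)).1 A, ← mul_assoc,
          (h3 _ _ (offT_of hab.1 hab.2)).1 A, mul_assoc]
      · rw [zero_mul, mul_zero])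
    (Om_mem fun a b h h' => (h3 _ _ (offT_of h h')).2 _
      (mem_InvT.1 hx.2 _ _ (offT_of h.symm h'.symm))) hy hxy P
  refine ⟨_, ⟨key.1, mem_InvT.2 fun a b hab => ?_⟩, by simpa only [hP, one_smul] using key.2⟩
  obtain ⟨a', b', rfl, rfl, h, h'⟩ := of_offT hab
  have := hE a' b' h
  rw [EE, if_neg h', sub_zero] at this
  rw [this]
  exact Submodule.zero_mem _

end Pool.Agent.MP_8be872_ag.H45
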